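import Mathlib

/-!
# Project GU (MP_b1e6de): patching of completions of rows

Block A: clearing of denominators, the dilation lemma, the splitting lemma, gluing and the
patching lemma. Everything is stated for an elementwise notion of localisation (`LocAt`, `PSq`)
which holds for `Localization.Away`.
-/

namespace Helper60.GU

open Matrix Polynomial Filter

universe u v w x y

/-- `φ : R → S` behaves like the localisation of `R` at the powers of `s`. -/
structure LocAt {R : Type u} {S : Type v} [CommRing R] [CommRing S] (φ : R →+* S) (s : R) :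
    Prop where
  surj : ∀ z : S, ∃ N : ℕ, ∃ y : R, φ y = φ s ^ N * z
  ker : ∀ y : R, φ y = 0 → ∃ N : ℕ, s ^ N * y = 0

/-- substitution `X ↦ a X` -/
noncomputable def scl {R : Type u} [CommRing R] (a : R) : R[X] →+* R[X] := compRingHom (C a * X)

section scl

variable {R : Type u} {S : Type v} [CommRing R] [CommRing S]

theorem scl_coeff (a : R) (p : R[X]) (j : ℕ) : (scl a p).coeff j = p.coeff j * a ^ j := by
  simp [scl]

theorem scl_scl (a b : R) (p : R[X]) : scl a (scl b p) = scl (b * a) p := by
  ext j
  simp only [scl_coeff]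
  ring

theorem scl_map (φ : R →+* S) (a : R) (p : R[X]) :
    (scl a p).map φ = scl (φ a) (p.map φ) := by
  ext j
  simp only [scl_coeff, coeff_map, map_mul, map_pow]

theorem scl_eval (a c : R) (p : R[X]) : (scl a p).eval c = p.eval (a * c) := by
  simp [scl, eval_comp]

theorem scl_C (a c : R) : scl a (C c) = C c := by
  simp [scl]

end scl

section clear

variable {R : Type u} {S : Type v} [CommRing R] [CommRing S] {φ : R →+* S} {s : R}

theorem LocAt.ev (h : LocAt φ s) (z : S) : ∀ᶠ N : ℕ in atTop, ∃ y : R, φ y = φ s ^ N * z := by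
  obtain ⟨N, y, hy⟩ := h.surj z
  filter_upwards [eventually_ge_atTop N] with N' hN'
  refine ⟨s ^ (N' - N) * y, ?_⟩
  rw [map_mul, map_pow, hy, ← mul_assoc, ← pow_add, Nat.sub_add_cancel hN']

theorem LocAt.evk (h : LocAt φ s) (y : R) (hy : φ y = 0) : ∀ᶠ N : ℕ in atTop, s ^ N * y = 0 := by
  obtain ⟨N, hN⟩ := h.ker y hy
  filter_upwards [eventually_ge_atTop N] with N' hN'
  rw [← Nat.sub_add_cancel hN', pow_add, mul_assoc, hN, mul_zero]

theorem ev_mul {P : ℕ → Prop} (h : ∀ᶠ N : ℕ in atTop, P N) :
    ∀ᶠ N : ℕ in atTop, ∀ j : ℕ, 1 ≤ j → P (N * j) := by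
  obtain ⟨N, hN⟩ := eventually_atTop.1 h
  filter_upwards [eventually_ge_atTop N] with N' hN' j hj
  exact hN _ (hN'.trans (Nat.le_mul_of_pos_right _ hj))

/-- clearing denominators in a polynomial, the constant coefficient being prescribed -/
theorem clear1 (h : LocAt φ s) (p : S[X]) (c : R) (hc : φ c = p.coeff 0) :
    ∀ᶠ N : ℕ in atTop, ∃ q : R[X], q.coeff 0 = c ∧ q.map φ = scl (φ s ^ N) p := by
  have h1 : ∀ᶠ N : ℕ in atTop, ∀ j ∈ Finset.range (p.natDegree + 1), ∀ k : ℕ, 1 ≤ k →
      ∃ y : R, φ y = φ s ^ (N * k) * p.coeff j := by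
    rw [Finset.eventually_all]
    intro j _
    exact ev_mul (h.ev (p.coeff j))
  filter_upwards [h1] with N hN
  have h2 : ∀ j : ℕ, ∃ y : R, 1 ≤ j → φ y = φ s ^ (N * j) * p.coeff j := by
    intro j
    by_cases hj : 1 ≤ j
    · by_cases hd : j ∈ Finset.range (p.natDegree + 1)
      · obtain ⟨y, hy⟩ := hN j hd j hj
        exact ⟨y, fun _ => hy⟩
      · refine ⟨0, fun _ => ?_⟩
        rw [coeff_eq_zero_of_natDegree_lt (by simpa using hd)]
        simp
    · exact ⟨0, fun h' => absurd h' hj⟩
  choose y hy using h2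
  refine ⟨∑ j ∈ Finset.range (p.natDegree + 1), monomial j (if j = 0 then c else y j), ?_, ?_⟩
  · rw [finsetSum_coeff, Finset.sum_eq_single 0]
    · simp
    · intro j _ hj
      rw [coeff_monomial, if_neg hj]
    · intro h0
      simp at h0
  · ext j
    rw [coeff_map, finsetSum_coeff, scl_coeff]
    by_cases hd : j ∈ Finset.range (p.natDegree + 1)
    · rw [Finset.sum_eq_single j]
      · rw [coeff_monomial, if_pos rfl]
        by_cases hj : j = 0
        · subst hj
          simp [hc]
        · rw [if_neg hj, hy j (Nat.one_le_iff_ne_zero.2 hj), pow_mul, mul_comm]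
      · intro k _ hk
        rw [coeff_monomial, if_neg hk]
      · intro h0
        exact absurd hd h0
    · rw [Finset.sum_eq_zero, coeff_eq_zero_of_natDegree_lt (by simpa using hd)]
      · simp
      · intro k hk
        rw [coeff_monomial, if_neg]
        rintro rfl
        exact hd hk

/-- a polynomial without constant term which dies in the localisation dies after rescaling -/
theorem vanish1 (h : LocAt φ s) (q : R[X]) (h0 : q.coeff 0 = 0) (hq : q.map φ = 0) :
    ∀ᶠ N : ℕ in atTop, scl (s ^ N) q = 0 := by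
  have h1 : ∀ᶠ N : ℕ in atTop, ∀ j ∈ Finset.range (q.natDegree + 1), ∀ k : ℕ, 1 ≤ k →
      s ^ (N * k) * q.coeff j = 0 := by
    rw [Finset.eventually_all]
    intro j _
    refine ev_mul (h.evk _ ?_)
    rw [← coeff_map, hq, coeff_zero]
  filter_upwards [h1] with N hN
  ext j
  rw [scl_coeff, coeff_zero]
  by_cases hj : j = 0
  · rw [hj, h0, zero_mul]
  · by_cases hd : j ∈ Finset.range (q.natDegree + 1)
    · rw [← pow_mul, mul_comm]
      exact hN j hd j (Nat.one_le_iff_ne_zero.2 hj)
    · rw [coeff_eq_zero_of_natDegree_lt (by simpa using hd), zero_mul]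

/-- two polynomials with the same constant term and the same image agree after rescaling -/
theorem agree1 (h : LocAt φ s) (p q : R[X]) (h0 : p.coeff 0 = q.coeff 0)
    (hq : p.map φ = q.map φ) : ∀ᶠ N : ℕ in atTop, scl (s ^ N) p = scl (s ^ N) q := by
  filter_upwards [vanish1 h (p - q) (by rw [coeff_sub, h0, sub_self])
    (by rw [Polynomial.map_sub, hq, sub_self])] with N hN
  rw [map_sub] at hN
  exact sub_eq_zero.1 hN

/-- the elementwise localisation property passes to polynomial rings -/
theorem LocAt.poly (h : LocAt φ s) : LocAt (mapRingHom φ) (C s) := by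
  constructor
  · intro z
    have h1 : ∀ᶠ N : ℕ in atTop, ∀ j ∈ Finset.range (z.natDegree + 1),
        ∃ y : R, φ y = φ s ^ N * z.coeff j := by
      rw [Finset.eventually_all]
      intro j _
      exact h.ev _
    obtain ⟨N, hN⟩ := h1.exists
    have h2 : ∀ j : ℕ, ∃ y : R, φ y = φ s ^ N * z.coeff j := by
      intro j
      by_cases hd : j ∈ Finset.range (z.natDegree + 1)
      · exact hN j hd
      · refine ⟨0, ?_⟩
        rw [coeff_eq_zero_of_natDegree_lt (by simpa using hd)]
        simp
    choose y hy using h2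
    refine ⟨N, ∑ j ∈ Finset.range (z.natDegree + 1), monomial j (y j), ?_⟩
    ext j
    rw [coe_mapRingHom, coeff_map, finsetSum_coeff, map_C, ← C_pow, coeff_C_mul]
    by_cases hd : j ∈ Finset.range (z.natDegree + 1)
    · rw [Finset.sum_eq_single j]
      · rw [coeff_monomial, if_pos rfl, hy]
      · intro k _ hk
        rw [coeff_monomial, if_neg hk]
      · intro h0
        exact absurd hd h0
    · rw [Finset.sum_eq_zero, coeff_eq_zero_of_natDegree_lt (by simpa using hd)]
      · simp
      · intro k hk
        rw [coeff_monomial, if_neg]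
        rintro rfl
        exact hd hk
  · intro y hy
    rw [coe_mapRingHom] at hy
    have h1 : ∀ᶠ N : ℕ in atTop, ∀ j ∈ Finset.range (y.natDegree + 1),
        s ^ N * y.coeff j = 0 := by
      rw [Finset.eventually_all]
      intro j _
      refine h.evk _ ?_
      rw [← coeff_map, hy, coeff_zero]
    obtain ⟨N, hN⟩ := h1.exists
    refine ⟨N, ?_⟩
    ext j
    rw [← C_pow, coeff_C_mul, coeff_zero]
    by_cases hd : j ∈ Finset.range (y.natDegree + 1)
    · exact hN j hd
    · rw [coeff_eq_zero_of_natDegree_lt (by simpa using hd), mul_zero]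

end clear

section dilation

variable {n : Type w} [Fintype n] [DecidableEq n]
variable {R : Type u} {S : Type v} [CommRing R] [CommRing S] {φ : R →+* S} {s : R}

theorem map_mul_map {R' : Type x} {S' : Type y} [CommRing R'] [CommRing S'] (f : R' →+* S')
    (M N : Matrix n n R') : (M * N).map f = M.map f * N.map f := by
  ext i j
  simp [Matrix.mul_apply, map_sum]

theorem map_one_map {R' : Type x} {S' : Type y} [CommRing R'] [CommRing S'] (f : R' →+* S') :
    (1 : Matrix n n R').map f = 1 := by
  ext i j
  simp [Matrix.one_apply, apply_ite f]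

theorem vecMul_map {R' : Type x} {S' : Type y} [CommRing R'] [CommRing S'] (f : R' →+* S')
    (a : n → R') (M : Matrix n n R') :
    (fun j => f (vecMul a M j)) = vecMul (fun j => f (a j)) (M.map f) := by
  ext j
  simp [Matrix.vecMul, dotProduct, map_sum]

/-- clearing denominators in a matrix of polynomials with value `1` at `0` -/
theorem clearM (h : LocAt φ s) (M : Matrix n n S[X]) (h0 : M.map (eval 0) = 1) :
    ∀ᶠ N : ℕ in atTop, ∃ G : Matrix n n R[X], G.map (eval 0) = 1 ∧
      G.map (mapRingHom φ) = M.map (scl (φ s ^ N)) := by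
  have h1 : ∀ᶠ N : ℕ in atTop, ∀ i : n, ∀ j : n, ∃ q : R[X], q.coeff 0 = (1 : Matrix n n R) i j ∧
      q.map φ = scl (φ s ^ N) (M i j) := by
    rw [eventually_all]
    intro i
    rw [eventually_all]
    intro j
    refine clear1 h (M i j) _ ?_
    have := congrFun (congrFun h0 i) j
    rw [Matrix.map_apply] at this
    rw [coeff_zero_eq_eval_zero, this]
    simp [Matrix.one_apply, apply_ite φ]
  filter_upwards [h1] with N hN
  choose q hq0 hq using hN
  refine ⟨Matrix.of q, ?_, ?_⟩
  · ext i j
    rw [Matrix.map_apply, Matrix.of_apply, ← coeff_zero_eq_eval_zero, hq0]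
  · ext1 i j
    simp only [Matrix.map_apply, Matrix.of_apply, coe_mapRingHom]
    exact hq i j

/-- two matrices of polynomials with the same value at `0` and the same image agree after
rescaling -/
theorem agreeM (h : LocAt φ s) (G H : Matrix n n R[X]) (h0 : G.map (eval 0) = H.map (eval 0))
    (he : G.map (mapRingHom φ) = H.map (mapRingHom φ)) :
    ∀ᶠ N : ℕ in atTop, G.map (scl (s ^ N)) = H.map (scl (s ^ N)) := by
  have h1 : ∀ᶠ N : ℕ in atTop, ∀ i : n, ∀ j : n,
      scl (s ^ N) (G i j) = scl (s ^ N) (H i j) := by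
    rw [eventually_all]
    intro i
    rw [eventually_all]
    intro j
    refine agree1 h _ _ ?_ ?_
    · have := congrFun (congrFun h0 i) j
      simpa [Matrix.map_apply, coeff_zero_eq_eval_zero] using this
    · have := congrFun (congrFun he i) j
      simpa [Matrix.map_apply] using this
  filter_upwards [h1] with N hN
  ext1 i j
  exact hN i j

theorem agreeV (h : LocAt φ s) (a b : n → R[X]) (h0 : ∀ j, (a j).coeff 0 = (b j).coeff 0)
    (he : ∀ j, (a j).map φ = (b j).map φ) :
    ∀ᶠ N : ℕ in atTop, ∀ j, scl (s ^ N) (a j) = scl (s ^ N) (b j) := by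
  rw [eventually_all]
  intro j
  exact agree1 h _ _ (h0 j) (he j)

theorem eval_scl_map (a : R) (G : Matrix n n R[X]) :
    (G.map (scl a)).map (eval 0) = G.map (eval 0) := by
  ext i j
  simp only [Matrix.map_apply]
  rw [scl_eval, mul_zero]

/-- DILATION LEMMA. A path over the localisation which starts at `1` and carries the row `a` to
the row `b` comes, after rescaling, from a path over `R` with the same property. -/
theorem dilation (h : LocAt φ s) (M M' : Matrix n n S[X]) (hMM : M * M' = 1)
    (h0 : M.map (eval 0) = 1) (a b : n → R[X]) (hab : ∀ j, (a j).coeff 0 = (b j).coeff 0)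
    (hv : vecMul (fun j => (a j).map φ) M = fun j => (b j).map φ) :
    ∀ᶠ N : ℕ in atTop, ∃ G G' : Matrix n n R[X], G * G' = 1 ∧ G.map (eval 0) = 1 ∧
      G.map (mapRingHom φ) = M.map (scl (φ s ^ N)) ∧
      vecMul (fun j => scl (s ^ N) (a j)) G = fun j => scl (s ^ N) (b j) := by
  have h0' : M'.map (eval 0) = 1 := by
    have e1 : (M * M').map (evalRingHom (0 : S)) = M.map (evalRingHom (0 : S)) *
        M'.map (evalRingHom (0 : S)) := map_mul_map _ M M'
    rw [hMM, map_one_map] at e1
    have e2 : M.map (evalRingHom (0 : S)) = 1 := h0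
    rw [e2, one_mul] at e1
    exact e1.symm
  obtain ⟨N0, ⟨G0, hG0, hG⟩, ⟨G0', hG0', hG'⟩⟩ := ((clearM h M h0).and (clearM h M' h0')).exists
  -- the two products agree with 1 after rescaling
  have e1 : (G0 * G0').map (mapRingHom φ) = (1 : Matrix n n R[X]).map (mapRingHom φ) := by
    rw [map_mul_map, hG, hG', ← map_mul_map, hMM, map_one_map, map_one_map]
  have e0 : (G0 * G0').map (eval 0) = (1 : Matrix n n R[X]).map (eval 0) := by
    have e1 : (G0 * G0').map (evalRingHom (0 : R)) = G0.map (evalRingHom (0 : R)) *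
        G0'.map (evalRingHom (0 : R)) := map_mul_map _ G0 G0'
    have e2 : G0.map (evalRingHom (0 : R)) = 1 := hG0
    have e3 : G0'.map (evalRingHom (0 : R)) = 1 := hG0'
    rw [e2, e3, one_mul] at e1
    have e4 : (1 : Matrix n n R[X]).map (evalRingHom (0 : R)) = 1 := map_one_map _
    exact e1.trans e4.symm
  have k1 := agreeM h (G0 * G0') 1 e0 e1
  -- the row identity
  have k2 := agreeV h (vecMul (fun j => scl (s ^ N0) (a j)) G0) (fun j => scl (s ^ N0) (b j)) (by
    intro j
    have e1 : eval 0 (vecMul (fun j => scl (s ^ N0) (a j)) G0 j)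
        = vecMul (fun j => eval 0 (scl (s ^ N0) (a j))) (G0.map (evalRingHom (0 : R))) j :=
      congrFun (vecMul_map (evalRingHom (0 : R)) (fun j => scl (s ^ N0) (a j)) G0) j
    have e2 : G0.map (evalRingHom (0 : R)) = 1 := hG0
    rw [coeff_zero_eq_eval_zero, e1, e2, vecMul_one, coeff_zero_eq_eval_zero, scl_eval, scl_eval,
      mul_zero, ← coeff_zero_eq_eval_zero, ← coeff_zero_eq_eval_zero, hab]) (by
    intro j
    have e1 : (vecMul (fun j => scl (s ^ N0) (a j)) G0 j).map φ
        = vecMul (fun j => (scl (s ^ N0) (a j)).map φ) (G0.map (mapRingHom φ)) j :=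
      congrFun (vecMul_map (mapRingHom φ) (fun j => scl (s ^ N0) (a j)) G0) j
    have e2 : vecMul (fun j => scl (φ s ^ N0) ((a j).map φ)) (M.map (scl (φ s ^ N0))) j
        = scl (φ s ^ N0) ((b j).map φ) := by
      have := congrFun (vecMul_map (scl (φ s ^ N0)) (fun j => (a j).map φ) M) j
      rw [← this, hv]
    rw [e1, hG, scl_map, map_pow, ← e2]
    congr 2
    ext1 j
    rw [scl_map, map_pow])
  obtain ⟨K, hK⟩ := eventually_atTop.1 (k1.and k2)
  filter_upwards [eventually_ge_atTop (N0 + K)] with N hN
  obtain ⟨K', hK', rfl⟩ : ∃ K', K ≤ K' ∧ N = N0 + K' := ⟨N - N0, by omega, by omega⟩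
  obtain ⟨k1, k2⟩ := hK K' hK'
  refine ⟨G0.map (scl (s ^ K')), G0'.map (scl (s ^ K')), ?_, ?_, ?_, ?_⟩
  · rw [← map_mul_map, k1, map_one_map]
  · rw [eval_scl_map, hG0]
  · ext1 i j
    simp only [Matrix.map_apply, coe_mapRingHom]
    have := congrFun (congrFun hG i) j
    simp only [Matrix.map_apply, coe_mapRingHom] at this
    rw [scl_map, this, map_pow, scl_scl, pow_add]
  · have := vecMul_map (scl (s ^ K')) (fun j => scl (s ^ N0) (a j)) G0
    ext1 j
    have e1 := congrFun this j
    simp only [scl_scl, ← pow_add] at e1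
    rw [← e1, k2 j, scl_scl, ← pow_add]

end dilation

end Helper60.GU
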