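import Mathlib
import Pool.Agent.Helper60.GU.Patch
import Pool.Agent.Helper78.GU.Suslin2

/-!
# Project GU (MP_b1e6de): splitting, gluing, the patching lemma, the local-global principle
-/

namespace Helper60.GU

open Matrix Polynomial Filter
open Pool.Agent.Helper78.GU (Um Eqv RE)

universe u v w x y

/-- The data of a cover of `A` by two coprime elements `f`, `i`, with the localisations
`Af`, `Ai`, `Afi`, in elementwise form. -/
structure PSq {A : Type u} {Af : Type v} {Ai : Type w} {Afi : Type x} [CommRing A] [CommRing Af]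
    [CommRing Ai] [CommRing Afi] (f i : A) (αf : A →+* Af) (αi : A →+* Ai) (φf : Af →+* Afi)
    (φi : Ai →+* Afi) : Prop where
  cop : IsCoprime f i
  comm : ∀ a, φf (αf a) = φi (αi a)
  locf : LocAt φf (αf i)
  loci : LocAt φi (αi f)
  glue : ∀ x y, φf x = φi y → ∃ a, αf a = x ∧ αi a = y
  inj : ∀ a, αf a = 0 → αi a = 0 → a = 0
  unitf : IsUnit (αf f)
  uniti : IsUnit (αi i)

/-- `h` is a path in the general linear group over `R` which starts at `1` and fixes the row
`v` -/
structure IsPath {R : Type u} [CommRing R] {n : Type v} [Fintype n] [DecidableEq n] (v : n → R)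
    (h : Matrix n n R[X]) : Prop where
  unit : IsUnit h.det
  zero : h.map (eval 0) = 1
  fix : vecMul (fun j => C (v j)) h = fun j => C (v j)

section shift

variable {R : Type u} [CommRing R]

/-- `p(X) ↦ p(X + Z)`, the new variable `Z` being the outer one -/
noncomputable def sh : R[X] →+* R[X][X] := eval₂RingHom ((C : R[X] →+* R[X][X]).comp C) (C X + X)

theorem sh_C (a : R) : sh (C a) = C (C a) := by simp [sh]

theorem sh_X : sh (X : R[X]) = C X + X := by simp [sh]

theorem ev0_sh : ((evalRingHom (0 : R[X])).comp sh : R[X] →+* R[X]) = RingHom.id _ := by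
  apply Polynomial.ringHom_ext
  · intro a
    simp [sh_C]
  · simp [sh_X]

theorem ev0_C : ((evalRingHom (0 : R[X])).comp C : R[X] →+* R[X]) = RingHom.id _ := by
  apply Polynomial.ringHom_ext
  · intro a
    simp
  · simp

/-- evaluate the outer variable at `z`, the inner one at `b` -/
noncomputable def ev2 (b z : R) : R[X][X] →+* R := (evalRingHom b).comp (evalRingHom (C z))

theorem ev2_apply (b z : R) (p : R[X][X]) : ev2 b z p = (p.eval (C z)).eval b := rfl

theorem ev2_sh (b z : R) : (ev2 b z).comp sh = evalRingHom (b + z) := by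
  apply Polynomial.ringHom_ext
  · intro a
    simp [sh_C, ev2]
  · simp [sh_X, ev2]

theorem ev2_C (b z : R) : (ev2 b z).comp C = evalRingHom b := by
  apply Polynomial.ringHom_ext
  · intro a
    simp [ev2]
  · simp [ev2]

theorem ev2_scl (b z c : R) (p : R[X][X]) : ev2 b z (scl (C c) p) = ev2 b (c * z) p := by
  rw [ev2_apply, ev2_apply, scl_eval, ← C_mul]

end shift

section splitting

variable {n : Type y} [Fintype n] [DecidableEq n]

theorem map_map_comp {R S T : Type*} [CommRing R] [CommRing S] [CommRing T]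
    (M : Matrix n n R) (f : R →+* S) (g : S →+* T) :
    (M.map f).map g = M.map (g.comp f) := by
  ext i j
  rfl

theorem exists_inv_of_det {R : Type u} [CommRing R] (M : Matrix n n R) (h : IsUnit M.det) :
    ∃ M' : Matrix n n R, M * M' = 1 ∧ M' * M = 1 :=
  ⟨M⁻¹, M.mul_nonsing_inv h, M.nonsing_inv_mul h⟩

theorem det_unit_of_mul {R : Type u} [CommRing R] {M M' : Matrix n n R} (h : M * M' = 1) :
    IsUnit M.det := by
  have : M.det * M'.det = 1 := by rw [← det_mul, h, det_one]
  exact IsUnit.of_mul_eq_one _ this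

variable {A : Type u} {Af : Type v} {Ai : Type w} {Afi : Type x} [CommRing A] [CommRing Af]
  [CommRing Ai] [CommRing Afi] {f i : A} {αf : A →+* Af} {αi : A →+* Ai} {φf : Af →+* Afi}
  {φi : Ai →+* Afi}

/-- SPLITTING of the end point of a path which fixes a row defined over `A`. -/
theorem splitting (P : PSq f i αf αi φf φi) (v : n → A) (h : Matrix n n Afi[X])
    (hp : IsPath (fun j => φf (αf (v j))) h) :
    ∃ (sf sf' : Matrix n n Af) (si si' : Matrix n n Ai), sf * sf' = 1 ∧
      vecMul (fun j => αf (v j)) sf = (fun j => αf (v j)) ∧ si * si' = 1 ∧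
      vecMul (fun j => αi (v j)) si = (fun j => αi (v j)) ∧
      h.map (evalRingHom 1) = sf.map φf * si.map φi := by
  obtain ⟨h', hh', hh''⟩ := exists_inv_of_det h hp.unit
  have hfix' : vecMul (fun j => C (φf (αf (v j)))) h' = fun j => C (φf (αf (v j))) := by
    conv_lhs => rw [← hp.fix]
    rw [vecMul_vecMul, hh', vecMul_one]
  -- the two variable path
  set M : Matrix n n Afi[X][X] := h.map sh * h'.map C with hM
  set M' : Matrix n n Afi[X][X] := h.map C * h'.map sh with hM'
  have hMM : M * M' = 1 := by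
    have e1 : h'.map (C : Afi[X] →+* Afi[X][X]) * h.map (C : Afi[X] →+* Afi[X][X]) = 1 := by
      rw [← map_mul_map, hh'', map_one_map]
    have e2 : h.map (sh : Afi[X] →+* Afi[X][X]) * h'.map (sh : Afi[X] →+* Afi[X][X]) = 1 := by
      rw [← map_mul_map, hh', map_one_map]
    calc M * M' = h.map sh * (h'.map C * h.map C) * h'.map sh := by
          rw [hM, hM']; simp only [Matrix.mul_assoc]
      _ = 1 := by rw [e1, Matrix.mul_one, e2]
  have hM0 : M.map (eval 0) = 1 := by
    have e : M.map (evalRingHom (0 : Afi[X])) = 1 := by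
      rw [hM, map_mul_map, map_map_comp, map_map_comp, ev0_sh, ev0_C, ← map_mul_map, hh',
        map_one_map]
    exact e
  have hMv : vecMul (fun j => C (C (φf (αf (v j))))) M = fun j => C (C (φf (αf (v j)))) := by
    rw [hM, ← vecMul_vecMul]
    have e1 := vecMul_map (sh : Afi[X] →+* Afi[X][X]) (fun j => C (φf (αf (v j)))) h
    rw [hp.fix] at e1
    simp only [sh_C] at e1
    rw [← e1]
    have e2 := vecMul_map (C : Afi[X] →+* Afi[X][X]) (fun j => C (φf (αf (v j)))) h'
    rw [hfix'] at e2
    exact e2.symm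
  -- dilation for the two charts
  have hd1 := dilation (P.locf.poly) M M' hMM hM0 (fun j => C (C (αf (v j))))
    (fun j => C (C (αf (v j)))) (fun _ => rfl) (by
      simpa only [map_C, coe_mapRingHom] using hMv)
  have hd2 := dilation P.loci h h' hh' hp.zero (fun j => C (αi (v j)))
    (fun j => C (αi (v j))) (fun _ => rfl) (by
      simpa only [map_C, ← P.comm] using hp.fix)
  obtain ⟨N1, G, G', hGG, -, hG, hGv⟩ := hd1.exists
  obtain ⟨N2, H, H', hHH, -, hH, hHv⟩ := hd2.exists
  obtain ⟨a1, a2, hb⟩ : IsCoprime (f ^ N2) (i ^ N1) := P.cop.pow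
  refine ⟨G.map (ev2 (αf (a1 * f ^ N2)) (αf a2)), G'.map (ev2 (αf (a1 * f ^ N2)) (αf a2)),
    H.map (evalRingHom (αi a1)), H'.map (evalRingHom (αi a1)), ?_, ?_, ?_, ?_, ?_⟩
  · rw [← map_mul_map, hGG, map_one_map]
  · have e1 := vecMul_map (ev2 (αf (a1 * f ^ N2)) (αf a2)) (fun j => C (C (αf (v j)))) G
    simp only [scl_C] at hGv
    rw [hGv] at e1
    simp only [ev2_apply, eval_C] at e1
    exact e1.symm
  · rw [← map_mul_map, hHH, map_one_map]
  · have e1 := vecMul_map (evalRingHom (αi a1)) (fun j => C (αi (v j))) H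
    simp only [scl_C] at hHv
    rw [hHv] at e1
    simp only [coe_evalRingHom, eval_C] at e1
    exact e1.symm
  · -- the two factors
    have e1 : (G.map (ev2 (αf (a1 * f ^ N2)) (αf a2))).map φf
        = M.map (ev2 (φf (αf (a1 * f ^ N2))) (φf (αf (a2 * i ^ N1)))) := by
      have k1 : φf.comp (ev2 (αf (a1 * f ^ N2)) (αf a2))
          = (ev2 (φf (αf (a1 * f ^ N2))) (φf (αf a2))).comp (mapRingHom (mapRingHom φf)) := by
        apply Polynomial.ringHom_ext'
        · apply Polynomial.ringHom_ext
          · intro a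
            simp [ev2]
          · simp [ev2]
        · simp [ev2]
      rw [map_map_comp, k1, ← map_map_comp, hG]
      ext1 p q
      simp only [Matrix.map_apply]
      rw [coe_mapRingHom, map_C, ← C_pow, ev2_scl]
      congr 2
      rw [map_mul, map_pow, map_mul, map_pow, mul_comm]
    have e2 : (H.map (evalRingHom (αi a1))).map φi = h.map (evalRingHom (φf (αf (a1 * f ^ N2)))) := by
      have k1 : φi.comp (evalRingHom (αi a1))
          = (evalRingHom (φi (αi a1))).comp (mapRingHom φi) := by
        apply Polynomial.ringHom_ext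
        · intro a
          simp
        · simp
      rw [map_map_comp, k1, ← map_map_comp, hH]
      ext1 p q
      simp only [Matrix.map_apply, coe_evalRingHom]
      rw [scl_eval]
      congr 1
      rw [P.comm, map_mul, map_pow, map_mul, map_pow, mul_comm]
    have e3 : φf (αf (a1 * f ^ N2)) + φf (αf (a2 * i ^ N1)) = 1 := by
      rw [← map_add, ← map_add, hb, map_one, map_one]
    rw [e1, e2, hM, map_mul_map, map_map_comp, map_map_comp, ev2_sh, ev2_C, e3, Matrix.mul_assoc,
      ← map_mul_map, hh'', map_one_map, Matrix.mul_one]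

/-- gluing of matrices -/
theorem glueM (P : PSq f i αf αi φf φi) (G : Matrix n n Af) (H : Matrix n n Ai)
    (h : G.map φf = H.map φi) : ∃ M : Matrix n n A, M.map αf = G ∧ M.map αi = H := by
  have : ∀ p q, ∃ a, αf a = G p q ∧ αi a = H p q := fun p q =>
    P.glue _ _ (congrFun (congrFun h p) q)
  choose M hM1 hM2 using this
  exact ⟨Matrix.of M, by ext p q; exact hM1 p q, by ext p q; exact hM2 p q⟩

theorem injM (P : PSq f i αf αi φf φi) {G H : Matrix n n A} (h1 : G.map αf = H.map αf)
    (h2 : G.map αi = H.map αi) : G = H := by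
  ext p q
  refine sub_eq_zero.1 (P.inj _ ?_ ?_)
  · rw [map_sub, sub_eq_zero]
    exact congrFun (congrFun h1 p) q
  · rw [map_sub, sub_eq_zero]
    exact congrFun (congrFun h2 p) q

/-- THE PATCHING LEMMA. -/
theorem patching (P : PSq f i αf αi φf φi) (v w : n → A) (gf : Matrix n n Af)
    (gi : Matrix n n Ai) (hgf : IsUnit gf.det) (hgi : IsUnit gi.det)
    (hf : vecMul (fun j => αf (v j)) gf = fun j => αf (w j))
    (hi : vecMul (fun j => αi (v j)) gi = fun j => αi (w j))
    (h : Matrix n n Afi[X]) (hp : IsPath (fun j => φf (αf (v j))) h)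
    (h1 : h.map (evalRingHom 1) * gi.map φi = gf.map φf) : Eqv v w := by
  obtain ⟨sf, sf', si, si', hs, hsv, ht, htv, he⟩ := splitting P v h hp
  obtain ⟨gf', hgf1, hgf2⟩ := exists_inv_of_det gf hgf
  obtain ⟨gi', hgi1, hgi2⟩ := exists_inv_of_det gi hgi
  have hs' : sf' * sf = 1 := mul_eq_one_comm.1 hs
  have ht' : si' * si = 1 := mul_eq_one_comm.1 ht
  -- the matrices over the two charts
  have k1 : (sf' * gf).map φf = (si * gi).map φi := by
    rw [map_mul_map, map_mul_map, ← h1, he, ← Matrix.mul_assoc, ← Matrix.mul_assoc,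
      ← map_mul_map, hs', map_one_map, Matrix.one_mul]
  have k2 : (gf' * sf).map φf = (gi' * si').map φi := by
    have e1 : (gf' * sf).map φf * (sf' * gf).map φf = 1 := by
      rw [← map_mul_map, Matrix.mul_assoc, ← Matrix.mul_assoc sf, hs, Matrix.one_mul, hgf2,
        map_one_map]
    have e2 : (si * gi).map φi * (gi' * si').map φi = 1 := by
      rw [← map_mul_map, Matrix.mul_assoc, ← Matrix.mul_assoc gi, hgi1, Matrix.one_mul, ht,
        map_one_map]
    calc (gf' * sf).map φf = (gf' * sf).map φf * ((si * gi).map φi * (gi' * si').map φi) := by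
          rw [e2, Matrix.mul_one]
      _ = ((gf' * sf).map φf * (sf' * gf).map φf) * (gi' * si').map φi := by
          rw [← k1, Matrix.mul_assoc]
      _ = (gi' * si').map φi := by rw [e1, Matrix.one_mul]
  obtain ⟨g, hg1, hg2⟩ := glueM P (sf' * gf) (si * gi) k1
  obtain ⟨g', hg1', hg2'⟩ := glueM P (gf' * sf) (gi' * si') k2
  have hgg : g * g' = 1 := by
    refine injM P ?_ ?_
    · rw [map_mul_map, hg1, hg1', map_one_map, Matrix.mul_assoc, ← Matrix.mul_assoc gf, hgf1,
        Matrix.one_mul, hs']
    · rw [map_mul_map, hg2, hg2', map_one_map, Matrix.mul_assoc, ← Matrix.mul_assoc gi, hgi1,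
        Matrix.one_mul, ht]
  refine ⟨g, det_unit_of_mul hgg, ?_⟩
  have hsv' : vecMul (fun j => αf (v j)) sf' = fun j => αf (v j) := by
    conv_lhs => rw [← hsv]
    rw [vecMul_vecMul, hs, vecMul_one]
  ext j
  refine sub_eq_zero.1 (P.inj _ ?_ ?_)
  · rw [map_sub, sub_eq_zero]
    have e1 := congrFun (vecMul_map αf v g) j
    rw [hg1, ← vecMul_vecMul, hsv', hf] at e1
    exact e1
  · rw [map_sub, sub_eq_zero]
    have e1 := congrFun (vecMul_map αi v g) j
    rw [hg2, ← vecMul_vecMul, htv, hi] at e1
    exact e1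

end splitting

end Helper60.GU
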