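import Mathlib
import Pool.Agent.Helper60.GU.Patch2

/-!
# Project GU (MP_b1e6de): dilation for an arbitrary multiplicative set, local-global principle
-/

namespace Helper60.GU

open Matrix Polynomial Filter
open Pool.Agent.Helper78.GU (Um Eqv RE)

universe u v w x y

/-- `φ : R → S` behaves like the localisation of `R` at `M`. -/
structure LocM {R : Type u} {S : Type v} [CommRing R] [CommRing S] (φ : R →+* S)
    (M : Submonoid R) : Prop where
  surj : ∀ z : S, ∃ s ∈ M, ∃ y : R, φ y = φ s * z
  ker : ∀ y : R, φ y = 0 → ∃ s ∈ M, s * y = 0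

theorem LocM.of_isLocalization {R : Type u} {S : Type v} [CommRing R] [CommRing S] [Algebra R S]
    (M : Submonoid R) [IsLocalization M S] : LocM (algebraMap R S) M := by
  constructor
  · intro z
    obtain ⟨⟨y, s⟩, h⟩ := IsLocalization.surj M z
    exact ⟨s, s.2, y, by rw [mul_comm]; exact h.symm⟩
  · intro y hy
    rw [← map_zero (algebraMap R S), IsLocalization.eq_iff_exists M] at hy
    obtain ⟨c, hc⟩ := hy
    exact ⟨c, c.2, by simpa using hc⟩

/-- `P t` holds for all multiples `t` of some element of `M` -/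
def EvM {R : Type u} [CommRing R] (M : Submonoid R) (P : R → Prop) : Prop :=
  ∃ s ∈ M, ∀ t, s ∣ t → P t

section EvM

variable {R : Type u} [CommRing R] {M : Submonoid R}

theorem EvM.and {P Q : R → Prop} (hP : EvM M P) (hQ : EvM M Q) : EvM M (fun t => P t ∧ Q t) := by
  obtain ⟨s, hs, h⟩ := hP
  obtain ⟨s', hs', h'⟩ := hQ
  exact ⟨s * s', M.mul_mem hs hs', fun t ht => ⟨h t (dvd_of_mul_right_dvd ht),
    h' t (dvd_of_mul_left_dvd ht)⟩⟩

theorem EvM.mono {P Q : R → Prop} (hP : EvM M P) (h : ∀ t, P t → Q t) : EvM M Q := by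
  obtain ⟨s, hs, h'⟩ := hP
  exact ⟨s, hs, fun t ht => h t (h' t ht)⟩

theorem EvM.all {ι : Type v} (I : Finset ι) {P : ι → R → Prop} (h : ∀ i ∈ I, EvM M (P i)) :
    EvM M (fun t => ∀ i ∈ I, P i t) := by
  classical
  induction I using Finset.induction_on with
  | empty => exact ⟨1, M.one_mem, fun _ _ i hi => absurd hi (Finset.notMem_empty i)⟩
  | insert a I _ ih =>
    have h1 := (h a (Finset.mem_insert_self a I)).and
      (ih fun i hi => h i (Finset.mem_insert_of_mem hi))
    refine h1.mono ?_
    rintro t ⟨h2, h3⟩ i hi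
    rcases Finset.mem_insert.1 hi with rfl | hi
    · exact h2
    · exact h3 i hi

theorem EvM.allT {ι : Type v} [Fintype ι] {P : ι → R → Prop} (h : ∀ i, EvM M (P i)) :
    EvM M (fun t => ∀ i, P i t) :=
  (EvM.all Finset.univ fun i _ => h i).mono fun _ h i => h i (Finset.mem_univ i)

theorem EvM.exists {P : R → Prop} (h : EvM M P) : ∃ s ∈ M, P s := by
  obtain ⟨s, hs, h⟩ := h
  exact ⟨s, hs, h s dvd_rfl⟩

end EvM

section clear

variable {R : Type u} {S : Type v} [CommRing R] [CommRing S] {φ : R →+* S} {M : Submonoid R}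

theorem LocM.ev (h : LocM φ M) (z : S) : EvM M fun t => ∃ y : R, φ y = φ t * z := by
  obtain ⟨s, hs, y, hy⟩ := h.surj z
  refine ⟨s, hs, ?_⟩
  rintro t ⟨u, rfl⟩
  exact ⟨u * y, by rw [map_mul, hy, map_mul]; ring⟩

theorem LocM.evk (h : LocM φ M) (y : R) (hy : φ y = 0) : EvM M fun t => t * y = 0 := by
  obtain ⟨s, hs, hN⟩ := h.ker y hy
  refine ⟨s, hs, ?_⟩
  rintro t ⟨u, rfl⟩
  rw [mul_assoc, mul_left_comm, hN, mul_zero]

theorem evM_pow {P : R → Prop} (h : EvM M P) : EvM M fun t => ∀ j : ℕ, 1 ≤ j → P (t ^ j) := by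
  obtain ⟨s, hs, h⟩ := h
  exact ⟨s, hs, fun t ht j hj => h _ (ht.trans (dvd_pow_self t (by omega)))⟩

theorem clear1M (h : LocM φ M) (p : S[X]) (c : R) (hc : φ c = p.coeff 0) :
    EvM M fun t => ∃ q : R[X], q.coeff 0 = c ∧ q.map φ = scl (φ t) p := by
  have h1 : EvM M fun t => ∀ j ∈ Finset.range (p.natDegree + 1), ∀ k : ℕ, 1 ≤ k →
      ∃ y : R, φ y = φ (t ^ k) * p.coeff j :=
    EvM.all _ fun j _ => evM_pow (h.ev (p.coeff j))
  refine h1.mono fun t hN => ?_
  have h2 : ∀ j : ℕ, ∃ y : R, 1 ≤ j → φ y = φ (t ^ j) * p.coeff j := by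
    intro j
    by_cases hj : 1 ≤ j
    · by_cases hd : j ∈ Finset.range (p.natDegree + 1)
      · obtain ⟨y, hy⟩ := hN j hd j hj
        exact ⟨y, fun _ => hy⟩
      · refine ⟨0, fun _ => ?_⟩
        rw [coeff_eq_zero_of_natDegree_lt (by simpa using hd)]
        simp
    · exact ⟨0, fun h' => absurd h' hj⟩
  choose y hy using h2
  refine ⟨∑ j ∈ Finset.range (p.natDegree + 1), monomial j (if j = 0 then c else y j), ?_, ?_⟩
  · rw [finsetSum_coeff, Finset.sum_eq_single 0]
    · simp
    · intro j _ hj
      rw [coeff_monomial, if_neg hj]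
    · intro h0
      simp at h0
  · ext j
    rw [coeff_map, finsetSum_coeff, scl_coeff]
    by_cases hd : j ∈ Finset.range (p.natDegree + 1)
    · rw [Finset.sum_eq_single j]
      · rw [coeff_monomial, if_pos rfl]
        by_cases hj : j = 0
        · subst hj
          simp [hc]
        · rw [if_neg hj, hy j (Nat.one_le_iff_ne_zero.2 hj), map_pow, mul_comm]
      · intro k _ hk
        rw [coeff_monomial, if_neg hk]
      · intro h0
        exact absurd hd h0
    · rw [Finset.sum_eq_zero, coeff_eq_zero_of_natDegree_lt (by simpa using hd)]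
      · simp
      · intro k hk
        rw [coeff_monomial, if_neg]
        rintro rfl
        exact hd hk

theorem vanish1M (h : LocM φ M) (q : R[X]) (h0 : q.coeff 0 = 0) (hq : q.map φ = 0) :
    EvM M fun t => scl t q = 0 := by
  have h1 : EvM M fun t => ∀ j ∈ Finset.range (q.natDegree + 1), ∀ k : ℕ, 1 ≤ k →
      t ^ k * q.coeff j = 0 :=
    EvM.all _ fun j _ => evM_pow (h.evk _ (by rw [← coeff_map, hq, coeff_zero]))
  refine h1.mono fun t hN => ?_
  ext j
  rw [scl_coeff, coeff_zero]
  by_cases hj : j = 0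
  · rw [hj, h0, zero_mul]
  · by_cases hd : j ∈ Finset.range (q.natDegree + 1)
    · rw [mul_comm]
      exact hN j hd j (Nat.one_le_iff_ne_zero.2 hj)
    · rw [coeff_eq_zero_of_natDegree_lt (by simpa using hd), zero_mul]

theorem agree1M (h : LocM φ M) (p q : R[X]) (h0 : p.coeff 0 = q.coeff 0)
    (hq : p.map φ = q.map φ) : EvM M fun t => scl t p = scl t q :=
  (vanish1M h (p - q) (by rw [coeff_sub, h0, sub_self])
    (by rw [Polynomial.map_sub, hq, sub_self])).mono fun t hN => by
      rw [map_sub] at hN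
      exact sub_eq_zero.1 hN

/-- the localisation property passes to polynomial rings -/
theorem LocM.poly (h : LocM φ M) : LocM (mapRingHom φ) (M.map C) := by
  constructor
  · intro z
    have h1 : EvM M fun t => ∀ j ∈ Finset.range (z.natDegree + 1),
        ∃ y : R, φ y = φ t * z.coeff j := EvM.all _ fun j _ => h.ev _
    obtain ⟨t, ht, hN⟩ := h1.exists
    have h2 : ∀ j : ℕ, ∃ y : R, φ y = φ t * z.coeff j := by
      intro j
      by_cases hd : j ∈ Finset.range (z.natDegree + 1)
      · exact hN j hd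
      · refine ⟨0, ?_⟩
        rw [coeff_eq_zero_of_natDegree_lt (by simpa using hd)]
        simp
    choose y hy using h2
    refine ⟨C t, ⟨t, ht, rfl⟩, ∑ j ∈ Finset.range (z.natDegree + 1), monomial j (y j), ?_⟩
    ext j
    rw [coe_mapRingHom, coeff_map, finsetSum_coeff, map_C, coeff_C_mul]
    by_cases hd : j ∈ Finset.range (z.natDegree + 1)
    · rw [Finset.sum_eq_single j]
      · rw [coeff_monomial, if_pos rfl, hy]
      · intro k _ hk
        rw [coeff_monomial, if_neg hk]
      · intro h0
        exact absurd hd h0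
    · rw [Finset.sum_eq_zero, coeff_eq_zero_of_natDegree_lt (by simpa using hd)]
      · simp
      · intro k hk
        rw [coeff_monomial, if_neg]
        rintro rfl
        exact hd hk
  · intro y hy
    rw [coe_mapRingHom] at hy
    have h1 : EvM M fun t => ∀ j ∈ Finset.range (y.natDegree + 1), t * y.coeff j = 0 :=
      EvM.all _ fun j _ => h.evk _ (by rw [← coeff_map, hy, coeff_zero])
    obtain ⟨t, ht, hN⟩ := h1.exists
    refine ⟨C t, ⟨t, ht, rfl⟩, ?_⟩
    ext j
    rw [coeff_C_mul, coeff_zero]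
    by_cases hd : j ∈ Finset.range (y.natDegree + 1)
    · exact hN j hd
    · rw [coeff_eq_zero_of_natDegree_lt (by simpa using hd), mul_zero]

end clear

section dilation

variable {n : Type w} [Fintype n] [DecidableEq n]
variable {R : Type u} {S : Type v} [CommRing R] [CommRing S] {φ : R →+* S} {M : Submonoid R}

theorem clearMM (h : LocM φ M) (P : Matrix n n S[X]) (h0 : P.map (eval 0) = 1) :
    EvM M fun t => ∃ G : Matrix n n R[X], G.map (eval 0) = 1 ∧
      G.map (mapRingHom φ) = P.map (scl (φ t)) := by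
  have h1 : EvM M fun t => ∀ i : n, ∀ j : n, ∃ q : R[X],
      q.coeff 0 = (1 : Matrix n n R) i j ∧ q.map φ = scl (φ t) (P i j) := by
    refine EvM.allT fun i => EvM.allT fun j => ?_
    refine clear1M h (P i j) _ ?_
    have := congrFun (congrFun h0 i) j
    rw [Matrix.map_apply] at this
    rw [coeff_zero_eq_eval_zero, this]
    simp [Matrix.one_apply, apply_ite φ]
  refine h1.mono fun t hN => ?_
  choose q hq0 hq using hN
  refine ⟨Matrix.of q, ?_, ?_⟩
  · ext i j
    rw [Matrix.map_apply, Matrix.of_apply, ← coeff_zero_eq_eval_zero, hq0]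
  · ext1 i j
    simp only [Matrix.map_apply, Matrix.of_apply, coe_mapRingHom]
    exact hq i j

theorem agreeMM (h : LocM φ M) (G H : Matrix n n R[X]) (h0 : G.map (eval 0) = H.map (eval 0))
    (he : G.map (mapRingHom φ) = H.map (mapRingHom φ)) :
    EvM M fun t => G.map (scl t) = H.map (scl t) := by
  have h1 : EvM M fun t => ∀ i : n, ∀ j : n, scl t (G i j) = scl t (H i j) := by
    refine EvM.allT fun i => EvM.allT fun j => ?_
    refine agree1M h _ _ ?_ ?_
    · have := congrFun (congrFun h0 i) j
      simpa [Matrix.map_apply, coeff_zero_eq_eval_zero] using this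
    · have := congrFun (congrFun he i) j
      simpa [Matrix.map_apply] using this
  refine h1.mono fun t hN => ?_
  ext1 i j
  exact hN i j

theorem agreeVM (h : LocM φ M) (a b : n → R[X]) (h0 : ∀ j, (a j).coeff 0 = (b j).coeff 0)
    (he : ∀ j, (a j).map φ = (b j).map φ) : EvM M fun t => ∀ j, scl t (a j) = scl t (b j) :=
  EvM.allT fun j => agree1M h _ _ (h0 j) (he j)

/-- DILATION LEMMA for a multiplicative set -/
theorem dilationM (h : LocM φ M) (P P' : Matrix n n S[X]) (hPP : P * P' = 1)
    (h0 : P.map (eval 0) = 1) (a b : n → R[X]) (hab : ∀ j, (a j).coeff 0 = (b j).coeff 0)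
    (hv : vecMul (fun j => (a j).map φ) P = fun j => (b j).map φ) :
    ∃ t ∈ M, ∃ G G' : Matrix n n R[X], G * G' = 1 ∧ G.map (eval 0) = 1 ∧
      G.map (mapRingHom φ) = P.map (scl (φ t)) ∧
      vecMul (fun j => scl t (a j)) G = fun j => scl t (b j) := by
  have h0' : P'.map (eval 0) = 1 := by
    have e1 : (P * P').map (evalRingHom (0 : S)) = P.map (evalRingHom (0 : S)) *
        P'.map (evalRingHom (0 : S)) := map_mul_map _ P P'
    rw [hPP, map_one_map] at e1
    have e2 : P.map (evalRingHom (0 : S)) = 1 := h0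
    rw [e2, one_mul] at e1
    exact e1.symm
  obtain ⟨t0, ht0, ⟨G0, hG0, hG⟩, ⟨G0', hG0', hG'⟩⟩ := ((clearMM h P h0).and (clearMM h P' h0')).exists
  have e1 : (G0 * G0').map (mapRingHom φ) = (1 : Matrix n n R[X]).map (mapRingHom φ) := by
    rw [map_mul_map, hG, hG', ← map_mul_map, hPP, map_one_map, map_one_map]
  have e0 : (G0 * G0').map (eval 0) = (1 : Matrix n n R[X]).map (eval 0) := by
    have e1 : (G0 * G0').map (evalRingHom (0 : R)) = G0.map (evalRingHom (0 : R)) *
        G0'.map (evalRingHom (0 : R)) := map_mul_map _ G0 G0'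
    have e2 : G0.map (evalRingHom (0 : R)) = 1 := hG0
    have e3 : G0'.map (evalRingHom (0 : R)) = 1 := hG0'
    rw [e2, e3, one_mul] at e1
    have e4 : (1 : Matrix n n R[X]).map (evalRingHom (0 : R)) = 1 := map_one_map _
    exact e1.trans e4.symm
  have k1 := agreeMM h (G0 * G0') 1 e0 e1
  have k2 := agreeVM h (vecMul (fun j => scl t0 (a j)) G0) (fun j => scl t0 (b j)) (by
    intro j
    have e1 : eval 0 (vecMul (fun j => scl t0 (a j)) G0 j)
        = vecMul (fun j => eval 0 (scl t0 (a j))) (G0.map (evalRingHom (0 : R))) j :=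
      congrFun (vecMul_map (evalRingHom (0 : R)) (fun j => scl t0 (a j)) G0) j
    have e2 : G0.map (evalRingHom (0 : R)) = 1 := hG0
    rw [coeff_zero_eq_eval_zero, e1, e2, vecMul_one, coeff_zero_eq_eval_zero, scl_eval, scl_eval,
      mul_zero, ← coeff_zero_eq_eval_zero, ← coeff_zero_eq_eval_zero, hab]) (by
    intro j
    have e1 : (vecMul (fun j => scl t0 (a j)) G0 j).map φ
        = vecMul (fun j => (scl t0 (a j)).map φ) (G0.map (mapRingHom φ)) j :=
      congrFun (vecMul_map (mapRingHom φ) (fun j => scl t0 (a j)) G0) j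
    have e2 : vecMul (fun j => scl (φ t0) ((a j).map φ)) (P.map (scl (φ t0))) j
        = scl (φ t0) ((b j).map φ) := by
      have := congrFun (vecMul_map (scl (φ t0)) (fun j => (a j).map φ) P) j
      rw [← this, hv]
    rw [e1, hG, scl_map, ← e2]
    congr 2
    ext1 j
    rw [scl_map])
  obtain ⟨t1, ht1, k1, k2⟩ := (k1.and k2).exists
  refine ⟨t0 * t1, M.mul_mem ht0 ht1, G0.map (scl t1), G0'.map (scl t1), ?_, ?_, ?_, ?_⟩
  · rw [← map_mul_map, k1, map_one_map]
  · rw [eval_scl_map, hG0]
  · ext1 i j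
    simp only [Matrix.map_apply, coe_mapRingHom]
    have := congrFun (congrFun hG i) j
    simp only [Matrix.map_apply, coe_mapRingHom] at this
    rw [scl_map, this, map_mul, scl_scl]
  · have := vecMul_map (scl t1) (fun j => scl t0 (a j)) G0
    ext1 j
    have e1 := congrFun this j
    simp only [scl_scl] at e1
    rw [← e1, k2 j, scl_scl]

end dilation

section localGlobal

variable {n : Type w} [Fintype n] [DecidableEq n] {A : Type u} [CommRing A]

theorem scl_zero_sh : ((scl (C (0 : A))).comp sh : A[X] →+* A[X][X]) = C := by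
  apply Polynomial.ringHom_ext
  · intro a
    simp [sh_C, scl_C]
  · simp [sh_X, scl]

/-- the set of `s` with `V(T + s Y) ~ V(T)` -/
theorem shift_add (V : n → A[X]) (s t : A)
    (hs : Eqv (fun j => scl (C s) (sh (V j))) (fun j => C (V j)))
    (ht : Eqv (fun j => scl (C t) (sh (V j))) (fun j => C (V j))) :
    Eqv (fun j => scl (C (s + t)) (sh (V j))) (fun j => C (V j)) := by
  let τ : A[X][X] →+* A[X][X] := eval₂RingHom ((scl (C s)).comp sh) X
  have h1 := Eqv.map τ ht
  have e1 : τ.comp ((scl (C t)).comp sh) = (scl (C (s + t))).comp sh := by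
    apply Polynomial.ringHom_ext
    · intro a
      simp [τ, sh_C, scl_C]
    · simp only [τ, RingHom.comp_apply, sh_X, map_add, scl_C, coe_eval₂RingHom, eval₂_C]
      have k1 : scl (C t) (X : A[X][X]) = C (C t) * X := by simp [scl]
      have k2 : scl (C s) (X : A[X][X]) = C (C s) * X := by simp [scl]
      have k3 : scl (C s + C t) (X : A[X][X]) = C (C s + C t) * X := by simp [scl]
      rw [k1, k2, k3, eval₂_mul, eval₂_C, eval₂_X, C_add, RingHom.comp_apply, sh_C, scl_C]
      ring
  have e2 : ∀ p : A[X], τ (C p) = scl (C s) (sh p) := by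
    intro p
    simp [τ]
  have e3 : ∀ p : A[X], τ (scl (C t) (sh p)) = scl (C (s + t)) (sh p) := fun p =>
    RingHom.congr_fun e1 p
  simp only [e2, e3] at h1
  exact h1.trans hs

theorem shift_mul (V : n → A[X]) (a s : A)
    (hs : Eqv (fun j => scl (C s) (sh (V j))) (fun j => C (V j))) :
    Eqv (fun j => scl (C (a * s)) (sh (V j))) (fun j => C (V j)) := by
  have h1 := Eqv.map (scl (C a)) hs
  simp only [scl_scl, scl_C] at h1
  rw [mul_comm a s, C_mul]
  exact h1

/-- one local step of the local-global principle -/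
theorem local_step {S : Type v} [CommRing S] {φ : A →+* S} {M : Submonoid A} (hloc : LocM φ M)
    (V : n → A[X])
    (h : Eqv (fun j => (V j).map φ) (fun j => C (φ ((V j).eval 0)))) :
    ∃ s ∈ M, Eqv (fun j => scl (C s) (sh (V j))) (fun j => C (V j)) := by
  obtain ⟨g, hg, hVg⟩ := h
  obtain ⟨g', hgg', hg'g⟩ := exists_inv_of_det g hg
  set P := g.map sh * g'.map C with hP
  set P' := g.map C * g'.map sh with hP'
  have hPP : P * P' = 1 := by
    have e1 : g'.map (C : S[X] →+* S[X][X]) * g.map (C : S[X] →+* S[X][X]) = 1 := by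
      rw [← map_mul_map, hg'g, map_one_map]
    have e2 : g.map (sh : S[X] →+* S[X][X]) * g'.map (sh : S[X] →+* S[X][X]) = 1 := by
      rw [← map_mul_map, hgg', map_one_map]
    calc P * P' = g.map sh * (g'.map C * g.map C) * g'.map sh := by
          rw [hP, hP']; simp only [Matrix.mul_assoc]
      _ = 1 := by rw [e1, Matrix.mul_one, e2]
  have hP0 : P.map (eval 0) = 1 := by
    have e : P.map (evalRingHom (0 : S[X])) = 1 := by
      rw [hP, map_mul_map, map_map_comp, map_map_comp, ev0_sh, ev0_C, ← map_mul_map, hgg',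
        map_one_map]
    exact e
  have hsh : ∀ p : A[X], (sh p).map (mapRingHom φ) = sh (p.map φ) := by
    intro p
    have : (mapRingHom (mapRingHom φ)).comp sh = sh.comp (mapRingHom φ) := by
      apply Polynomial.ringHom_ext
      · intro a
        simp [sh_C]
      · simp [sh_X]
    exact RingHom.congr_fun this p
  have hv : vecMul (fun j => (sh (V j)).map (mapRingHom φ)) P
      = fun j => ((C (V j) : A[X][X])).map (mapRingHom φ) := by
    simp only [hsh, map_C, coe_mapRingHom]
    rw [hP, ← vecMul_vecMul]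
    have e1 := vecMul_map (sh : S[X] →+* S[X][X]) (fun j => (V j).map φ) g
    rw [hVg] at e1
    simp only [sh_C] at e1
    rw [← e1]
    have e2 : vecMul (fun j => C (φ ((V j).eval 0))) g' = fun j => (V j).map φ := by
      rw [← hVg, vecMul_vecMul, hgg', vecMul_one]
    have e3 := vecMul_map (C : S[X] →+* S[X][X]) (fun j => C (φ ((V j).eval 0))) g'
    rw [e2] at e3
    exact e3.symm
  obtain ⟨t, ht, G, G', hGG, -, -, hG⟩ := dilationM hloc.poly P P' hPP hP0 (fun j => sh (V j))
    (fun j => C (V j)) (fun j => by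
      have := RingHom.congr_fun (ev0_sh (R := A)) (V j)
      simp only [RingHom.comp_apply, coe_evalRingHom, RingHom.id_apply] at this
      rw [coeff_zero_eq_eval_zero, this, coeff_C_zero]) hv
  obtain ⟨s, hs, rfl⟩ := ht
  refine ⟨s, hs, G, det_unit_of_mul hGG, ?_⟩
  simp only [scl_C] at hG
  exact hG

/-- LOCAL-GLOBAL PRINCIPLE (Quillen, Vaserstein) for orbits of rows. -/
theorem localGlobal (V : n → A[X])
    (h : ∀ (m : Ideal A) [m.IsMaximal],
      Eqv (fun j => (V j).map (algebraMap A (Localization.AtPrime m)))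
        (fun j => C (algebraMap A (Localization.AtPrime m) ((V j).eval 0)))) :
    Eqv V (fun j => C ((V j).eval 0)) := by
  let J : Ideal A :=
    { carrier := {s | Eqv (fun j => scl (C s) (sh (V j))) (fun j => C (V j))}
      add_mem' := fun {a b} ha hb => shift_add V a b ha hb
      zero_mem' := by
        have : ∀ p : A[X], scl (C (0 : A)) (sh p) = C p := fun p => RingHom.congr_fun scl_zero_sh p
        show Eqv (fun j => scl (C (0 : A)) (sh (V j))) (fun j => C (V j))
        simp only [this]
        exact Eqv.refl _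
      smul_mem' := fun a s hs => shift_mul V a s hs }
  have hJ : J = ⊤ := by
    by_contra hne
    obtain ⟨m, hm, hle⟩ := Ideal.exists_le_maximal J hne
    have := hm
    obtain ⟨s, hs, hsJ⟩ := local_step
      (LocM.of_isLocalization (S := Localization.AtPrime m) m.primeCompl) V (h m)
    exact hs (hle hsJ)
  have h1 : (1 : A) ∈ J := by rw [hJ]; trivial
  have h2 : Eqv (fun j => scl (C (1 : A)) (sh (V j))) (fun j => C (V j)) := h1
  -- put T = 0
  have h3 := Eqv.map (mapRingHom (evalRingHom (0 : A))) h2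
  have e1 : ∀ p : A[X], (mapRingHom (evalRingHom (0 : A))) (scl (C (1 : A)) (sh p)) = p := by
    intro p
    have : ((mapRingHom (evalRingHom (0 : A))).comp ((scl (C (1 : A))).comp sh)) = RingHom.id _ := by
      apply Polynomial.ringHom_ext
      · intro a
        simp [sh_C, scl_C]
      · simp [sh_X, scl]
    exact RingHom.congr_fun this p
  have e2 : ∀ p : A[X], (mapRingHom (evalRingHom (0 : A))) (C p) = C (p.eval 0) := by
    intro p
    simp
  simp only [e1, e2] at h3
  exact h3

end localGlobal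

section away

variable {A : Type u} [CommRing A]

theorem LocAt.of_away {R : Type u} {S : Type v} [CommRing R] [CommRing S] [Algebra R S] (s : R)
    [IsLocalization.Away s S] : LocAt (algebraMap R S) s := by
  have h := LocM.of_isLocalization (S := S) (Submonoid.powers s)
  constructor
  · intro z
    obtain ⟨_, ⟨N, rfl⟩, y, hy⟩ := h.surj z
    exact ⟨N, y, by rw [hy, map_pow]⟩
  · intro y hy
    obtain ⟨_, ⟨N, rfl⟩, h⟩ := h.ker y hy
    exact ⟨N, h⟩

/-- The standard cover: `A_f`, `A_i` and `A_(f i)`. -/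
theorem psq_away (f i : A) (hfi : IsCoprime f i) :
    PSq f i (algebraMap A (Localization.Away f)) (algebraMap A (Localization.Away i))
      (IsLocalization.Away.awayToAwayRight (P := Localization.Away (f * i)) f i)
      (IsLocalization.Away.awayToAwayLeft (P := Localization.Away (f * i)) i f) := by
  set αf := algebraMap A (Localization.Away f)
  set αi := algebraMap A (Localization.Away i)
  set β := algebraMap A (Localization.Away (f * i))
  set φf : Localization.Away f →+* Localization.Away (f * i) :=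
    IsLocalization.Away.awayToAwayRight (P := Localization.Away (f * i)) f i
  set φi : Localization.Away i →+* Localization.Away (f * i) :=
    IsLocalization.Away.awayToAwayLeft (P := Localization.Away (f * i)) i f
  have hφf : ∀ a, φf (αf a) = β a := fun a => IsLocalization.Away.awayToAwayRight_eq f i a
  have hφi : ∀ a, φi (αi a) = β a := fun a => IsLocalization.Away.awayToAwayLeft_eq i f a
  have hf := LocAt.of_away (S := Localization.Away f) f
  have hi := LocAt.of_away (S := Localization.Away i) i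
  have hfi' := LocAt.of_away (S := Localization.Away (f * i)) (f * i)
  have uf : IsUnit (αf f) := IsLocalization.Away.algebraMap_isUnit f
  have ui : IsUnit (αi i) := IsLocalization.Away.algebraMap_isUnit i
  have ufi : IsUnit (β (f * i)) := IsLocalization.Away.algebraMap_isUnit (f * i)
  have uf' : IsUnit (β f) := isUnit_of_mul_isUnit_left (by rw [← map_mul]; exact ufi)
  have ui' : IsUnit (β i) := isUnit_of_mul_isUnit_right (by rw [← map_mul]; exact ufi)
  refine ⟨hfi, fun a => by rw [hφf, hφi], ⟨?_, ?_⟩, ⟨?_, ?_⟩, ?_, ?_, uf, ui⟩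
  · intro z
    obtain ⟨N, y, hy⟩ := hfi'.surj z
    obtain ⟨c, hc⟩ := (uf.pow N).exists_right_inv
    refine ⟨N, αf y * c, ?_⟩
    have e1 : β f ^ N * φf c = 1 := by
      rw [← hφf, ← map_pow, ← map_mul, hc, map_one]
    have e2 : β y = β (f * i) ^ N * z := hy
    rw [map_mul, hφf, e2, hφf, map_mul, mul_pow]
    linear_combination (β i ^ N * z) * e1
  · intro y hy
    obtain ⟨N, a, ha⟩ := hf.surj y
    have e1 : β a = 0 := by rw [← hφf, ha, map_mul, hy, mul_zero]
    obtain ⟨K, hK⟩ := hfi'.ker a e1
    refine ⟨K, ?_⟩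
    have e2 : αf ((f * i) ^ K * a) = 0 := by rw [hK, map_zero]
    rw [map_mul, map_pow, map_mul, mul_pow, ha] at e2
    have u2 : IsUnit (αf f ^ K * αf f ^ N) := (uf.pow K).mul (uf.pow N)
    have e3 : (αf f ^ K * αf f ^ N) * (αf i ^ K * y) = 0 := by linear_combination e2
    exact (u2.mul_right_eq_zero).1 e3
  · intro z
    obtain ⟨N, y, hy⟩ := hfi'.surj z
    obtain ⟨c, hc⟩ := (ui.pow N).exists_right_inv
    refine ⟨N, αi y * c, ?_⟩
    have e1 : β i ^ N * φi c = 1 := by
      rw [← hφi, ← map_pow, ← map_mul, hc, map_one]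
    have e2 : β y = β (f * i) ^ N * z := hy
    rw [map_mul, hφi, e2, hφi, map_mul, mul_pow]
    linear_combination (β f ^ N * z) * e1
  · intro y hy
    obtain ⟨N, a, ha⟩ := hi.surj y
    have e1 : β a = 0 := by rw [← hφi, ha, map_mul, hy, mul_zero]
    obtain ⟨K, hK⟩ := hfi'.ker a e1
    refine ⟨K, ?_⟩
    have e2 : αi ((f * i) ^ K * a) = 0 := by rw [hK, map_zero]
    rw [map_mul, map_pow, map_mul, mul_pow, ha] at e2
    have u2 : IsUnit (αi i ^ K * αi i ^ N) := (ui.pow K).mul (ui.pow N)
    have e3 : (αi i ^ K * αi i ^ N) * (αi f ^ K * y) = 0 := by linear_combination e2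
    exact (u2.mul_right_eq_zero).1 e3
  · -- gluing
    intro x y hxy
    obtain ⟨N, a, ha⟩ := (hf.ev x).and (hi.ev y) |>.exists
    obtain ⟨⟨a, ha⟩, ⟨b, hb⟩⟩ := And.intro a ha
    have e1 : β (a * i ^ N - b * f ^ N) = 0 := by
      have e2 : β a = β f ^ N * φf x := by rw [← hφf, ha, map_mul, map_pow, hφf]
      have e3 : β b = β i ^ N * φi y := by rw [← hφi, hb, map_mul, map_pow, hφi]
      rw [map_sub, map_mul, map_mul, map_pow, map_pow, e2, e3, hxy]
      ring
    obtain ⟨K, hK⟩ := hfi'.ker _ e1
    obtain ⟨p, q, hpq⟩ : IsCoprime (f ^ (K + N)) (i ^ (K + N)) := hfi.pow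
    refine ⟨p * (a * f ^ K) + q * (b * i ^ K), ?_, ?_⟩
    · have u2 : IsUnit (αf f ^ (K + N)) := uf.pow _
      refine u2.mul_left_cancel ?_
      have e4 : αf f ^ (K + N) * x = αf (a * f ^ K) := by
        rw [map_mul, ha, map_pow]
        ring
      rw [e4, ← map_pow, ← map_mul]
      congr 1
      linear_combination (a * f ^ K) * hpq - q * hK
    · have u2 : IsUnit (αi i ^ (K + N)) := ui.pow _
      refine u2.mul_left_cancel ?_
      have e4 : αi i ^ (K + N) * y = αi (b * i ^ K) := by
        rw [map_mul, hb, map_pow]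
        ring
      rw [e4, ← map_pow, ← map_mul]
      congr 1
      linear_combination (b * i ^ K) * hpq + p * hK
  · intro a h1 h2
    obtain ⟨N, hN⟩ := hf.ker a h1
    obtain ⟨K, hK⟩ := hi.ker a h2
    obtain ⟨p, q, hpq⟩ : IsCoprime (f ^ N) (i ^ K) := hfi.pow
    calc a = p * (f ^ N * a) + q * (i ^ K * a) := by linear_combination (-a) * hpq
      _ = 0 := by rw [hN, hK, mul_zero, mul_zero, add_zero]

end away

end Helper60.GU
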