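import Mathlib
import Pool.Agent.Helper60.GU.PatchM
import Pool.Agent.Helper91.GU.StA

/-!
Module A5 of project GU: the local-global principle of Quillen and Vaserstein for orbits of rows.
-/

set_option autoImplicit false

namespace Helper60.GU

open Pool.Agent.Helper91.GU

universe u

theorem hA5 (_hA1 : StA1.{u}) : StA5.{u} := by
  intro A _ n _ _ V h
  exact localGlobal V h

end Helper60.GU
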