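import Mathlib
import Pool.Agent.Helper91.GU.StF

/-!
Module F of project GU: end of the local part (assembly).
-/

set_option autoImplicit false

namespace Helper60.GU

open Pool.Agent.Helper91.GU Polynomial

universe u

theorem hF (hB0 : StB0.{u}) (hB7 : StB7.{u}) (hE0 : StE0.{u}) (hE12 : StE12.{u})
    (hE3 : StE3.{u}) (hF2 : StF2.{u}) (hF3c : StF3c.{u}) (hF4 : StF4.{u}) (hF5 : StF5.{u}) :
    StF.{u} := by
  intro L _ _ s hs hfac v₀ c hUm hdim hYK
  obtain ⟨k₀, a, hYK⟩ := hYK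
  -- the exponent `k`
  have hm2 : 2 ≤ (s + 1).factorial := le_trans (by omega) (Nat.self_le_factorial (s + 1))
  have hk1 : k₀ + 1 ≤ (s + 1).factorial ^ (k₀ + 1) :=
    (Nat.lt_pow_self (by omega : 1 < (s + 1).factorial)).le
  set k : ℕ := (s + 1).factorial ^ (k₀ + 1) with hk
  have hkU : IsUnit (k : L) := by
    rw [hk]
    push_cast
    exact hfac.pow _
  obtain ⟨N₀, hN⟩ := hE12 L s c hdim k₀ a hYK k (by omega) (by omega) hkU
  obtain ⟨e, he, b, hb, hce⟩ := hN N₀ le_rfl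
  obtain ⟨-, -, -, -, -, hB0e, -⟩ := hB0 L[X] L[X] (RingHom.id _) (Fin (s + 1))
  obtain ⟨-, hedet, -, -, -⟩ := hB0e e he
  -- the ideal `I` is generated by `γ` and the `b_j X^N` modulo `I²`
  have hI : idl c ≤ Ideal.span (insert (1 - C (a k) * X ^ k)
      (Set.range fun j => C (b j) * X ^ N₀)) ⊔ idl c ^ 2 := by
    have h1 : ∀ l, Matrix.vecMul c e l ∈ Ideal.span (insert (1 - C (a k) * X ^ k)
        (Set.range fun j => C (b j) * X ^ N₀)) ⊔ idl c ^ 2 := by
      intro l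
      have h2 : Matrix.vecMul c e l = (Fin.cons (1 - C (a k) * X ^ k)
          (fun j => C (b j) * X ^ N₀) : Fin (s + 1) → L[X]) l + (Matrix.vecMul c e l -
          (Fin.cons (1 - C (a k) * X ^ k) (fun j => C (b j) * X ^ N₀) : Fin (s + 1) → L[X]) l) := by
        ring
      rw [h2]
      refine Submodule.add_mem_sup ?_ (hce l)
      refine Fin.cases ?_ (fun j => ?_) l
      · exact Ideal.subset_span (Set.mem_insert _ _)
      · exact Ideal.subset_span (Set.mem_insert_of_mem _ ⟨j, rfl⟩)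
    have h3 : Matrix.vecMul (Matrix.vecMul c e) e⁻¹ = c := by
      rw [Matrix.vecMul_vecMul, Matrix.mul_nonsing_inv e (by rw [hedet]; exact isUnit_one),
        Matrix.vecMul_one]
    refine Ideal.span_le.2 ?_
    rintro _ ⟨j, rfl⟩
    have h4 : c j = ∑ l, Matrix.vecMul c e l * e⁻¹ l j := by
      conv_lhs => rw [← h3]
      rfl
    rw [h4]
    exact Ideal.sum_mem _ fun l _ => Ideal.mul_mem_right _ _ (h1 l)
  obtain ⟨κ, g, hκ, hg, hgJ⟩ := hE3 L (idl c) k₀ a hYK k (by omega) (by omega) hkU s b N₀ hb hI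
  have hDat : Dat (idl c) k₀ a b κ g := ⟨hYK, hb, hκ, hg, hgJ⟩
  -- `v₀` is a unit modulo `I`
  have hv₀ : IsUnit (Ideal.Quotient.mk (idl c) v₀) := by
    obtain ⟨y, hy⟩ := hUm
    have h1 : v₀ * y (Sum.inl ()) + ∑ j, c j * y (Sum.inr j) = 1 := by
      have : (row v₀ c) ⬝ᵥ y = v₀ * y (Sum.inl ()) + ∑ j, c j * y (Sum.inr j) := by
        simp [dotProduct, row]
      rw [← this, hy]
    have h2 : Ideal.Quotient.mk (idl c) (∑ j, c j * y (Sum.inr j)) = 0 := by
      rw [Ideal.Quotient.eq_zero_iff_mem]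
      exact Ideal.sum_mem _ fun j _ => Ideal.mul_mem_right _ _ (Ideal.subset_span ⟨j, rfl⟩)
    have h3 : Ideal.Quotient.mk (idl c) v₀ * Ideal.Quotient.mk (idl c) (y (Sum.inl ())) = 1 := by
      have := congrArg (Ideal.Quotient.mk (idl c)) h1
      rw [map_add, h2, add_zero, map_mul, map_one] at this
      exact this
    exact IsUnit.of_mul_eq_one _ h3
  obtain ⟨p, G, q', uh, hDG, huh, hR⟩ := hF2 L (idl c) k₀ a s b κ g hDat hfac v₀ hv₀ N₀
  obtain ⟨uh1, hu1, hu2⟩ := (hF3c L (idl c) k₀ a s b κ g hDat p G q' hDG N₀).1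
    (C (Ideal.Quotient.mk (idl c) v₀)) 1
  obtain ⟨-, hE0b, -⟩ := hE0 L (idl c) k₀ a hYK
  have hdiff : uh1 - v₀ ∈ idl c := by
    rw [← Ideal.Quotient.eq_zero_iff_mem, map_sub, sub_eq_zero, ← hE0b uh1]
    obtain ⟨w, hw⟩ := hu1
    have := congrArg (eval 1) hw
    rw [eval_sub, eval_C, eval_mul, eval_sub, eval_one, eval_X, sub_self, zero_mul] at this
    exact sub_eq_zero.1 this
  have k5 := hF5 L s hs c k₀ a b κ g hDat p G q' hDG N₀ k (by omega) hkU e he hce v₀ uh1 hdiff hu2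
  have k4 := hF4 L (idl c) k₀ a s b κ g hDat p G q' hDG N₀ v₀ uh uh1 hv₀ huh hu1 hu2
  obtain ⟨⟨-, -, htrans, -⟩, -⟩ := And.intro ((hB7 L[X] L[X] (RingHom.id _)).1
    (Unit ⊕ Fin (s + 1))) trivial
  exact htrans _ _ _ k5 (htrans _ _ _ k4 hR)

end Helper60.GU
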